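import Mathlib
import Pool.Agent.TH841.SH.ShaDef
import Pool.Agent.U409.GL.Abc

/-!
# The law of `Ш[2]` in the families of twists by the values of a polynomial

Let `W : y² = x³ + a x² + b² x` be an elliptic curve over `ℚ` with exactly one rational point of
order 2 (`b ≠ 0` and `a² - 4 b²` is not a square), i.e. an elliptic curve over `ℚ` with one rational
point of order 2 whose 2-isogenous curve has four rational 2-torsion points, and let
`F = ℚ(√(a² - 4 b²))` be its 2-division field. Let `D` be any nonzero polynomial with integer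
coefficients and let `W_t : y² = x³ + a D(t) x² + b² D(t)² x` be the twist of `W` by `D(t)`. Let `m`
be the number of the irreducible factors, up to association, of odd multiplicity of `D` that stay
irreducible over `F`. If `m ≥ 1`, then `log₂ #Ш(W_t/ℚ)[2]`, `|t| ≤ X`, has a limiting normal
distribution with mean and variance `(m / 2) log log X`. If `m = 0`, then `#Ш(W_t/ℚ)[2]` is bounded
in probability.
-/

set_option autoImplicit false

namespace Pool.Agent.Results.MP_78d38b_nt.GaussianSha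

open Finset Filter Polynomial Topology
open Pool.Agent.TH841.SH.D (ShaTor)

/-- the curve `y² = x³ + a d x² + b² d² x` over `ℚ`, the twist by `d` of `y² = x³ + a x² + b² x` -/
def W (a b d : ℤ) : WeierstrassCurve ℚ := ⟨0, (a : ℚ) * d, 0, (b : ℚ) ^ 2 * (d : ℚ) ^ 2, 0⟩

open scoped Classical in
/-- the integers `t`, `|t| ≤ X`, with `D (t) ≠ 0` and `log₂ #Ш(W_t/ℚ)[2] ≤ M + x √M`,
where `M = (m / 2) log log X` -/
noncomputable def Below (a b : ℤ) (D : ℤ[X]) (m : ℕ) (x : ℝ) (X : ℕ) : Finset ℤ :=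
  (Icc (-(X : ℤ)) X).filter (fun t => D.eval t ≠ 0 ∧
    Real.logb 2 (Nat.card (ShaTor (W a b (D.eval t)) 2)) ≤
      (m : ℝ) / 2 * Real.log (Real.log X) + x * Real.sqrt ((m : ℝ) / 2 * Real.log (Real.log X)))

open scoped Classical in
/-- the integers `t`, `|t| ≤ X`, with `D (t) ≠ 0` and `#Ш(W_t/ℚ)[2] > T` -/
noncomputable def Above (a b : ℤ) (D : ℤ[X]) (T : ℕ) (X : ℕ) : Finset ℤ :=
  (Icc (-(X : ℤ)) X).filter (fun t => D.eval t ≠ 0 ∧
    T < Nat.card (ShaTor (W a b (D.eval t)) 2))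

open Pool.Agent.U409.GL in
/-- The groups `Ш(W_t/ℚ)[2]` are finite; for a set `S` of representatives of the irreducible
factors of odd multiplicity of `D` that stay irreducible over `ℚ(√(a² - 4 b²))`, the function
`log₂ #Ш(W_t/ℚ)[2]`, `|t| ≤ X`, is asymptotically normally distributed with mean and variance
`(#S / 2) log log X` if `S` is not empty, and `#Ш(W_t/ℚ)[2]` is bounded in probability if `S` is
empty. -/
theorem result (a b : ℤ) (hb : b ≠ 0) (hsq : ¬ IsSquare (a ^ 2 - 4 * b ^ 2))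
    (D : ℤ[X]) (hD : D ≠ 0) (S : Finset ℤ[X])
    (hS : ∀ f ∈ S, Irreducible f ∧ 0 < f.natDegree ∧ Odd (multiplicity f D) ∧
      Irreducible (f.map (Int.castRingHom (QuadraticAlgebra ℚ ((a ^ 2 - 4 * b ^ 2 : ℤ) : ℚ) 0))))
    (hSn : ∀ f ∈ S, ∀ g ∈ S, f ≠ g → ¬ Associated f g)
    (hSc : ∀ f : ℤ[X], Irreducible f → 0 < f.natDegree → Odd (multiplicity f D) →
      Irreducible (f.map (Int.castRingHom (QuadraticAlgebra ℚ ((a ^ 2 - 4 * b ^ 2 : ℤ) : ℚ) 0))) →
      ∃ g ∈ S, Associated f g) :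
    (∀ t : ℤ, D.eval t ≠ 0 → Finite (ShaTor (W a b (D.eval t)) 2)) ∧
    (S.Nonempty → ∀ x : ℝ,
      Tendsto (fun X : ℕ => ((Below a b D S.card x X).card : ℝ) / (2 * X + 1)) atTop
        (𝓝 ((Real.sqrt (2 * Real.pi))⁻¹ * ∫ y in Set.Iic x, Real.exp (-y ^ 2 / 2)))) ∧
    (S = ∅ → ∀ ε : ℝ, 0 < ε → ∃ T : ℕ, ∀ᶠ X : ℕ in atTop,
      ((Above a b D T X).card : ℝ) ≤ ε * (2 * X + 1)) := by
  refine ⟨fun t ht => (fin_ab hb hsq ht).1, fun hS0 x => ?_, fun hS0 ε hε => ?_⟩
  · exact gauss_ab hb hsq hD S hS0 hS hSn hSc x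
  · exact tight_ab hb hsq hD (fun f h1 h2 h3 h4 => by
      obtain ⟨g, hg, -⟩ := hSc f h1 h2 h3 h4
      rw [hS0] at hg
      exact notMem_empty g hg) hε

end Pool.Agent.Results.MP_78d38b_nt.GaussianSha
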