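import Mathlib
import Pool.Agent.U409.SH.Ht
import Pool.Agent.U409.SH.Tor

/-!
# The average of `2 ^ rank * #Ш[2]` over all elliptic curves with torsion `Z/2 x Z/4` or `Z/2 x Z/6`

All elliptic curves over `ℚ` whose group of rational points has a subgroup isomorphic to
`Z/2 x Z/m`, `m = 4` or `m = 6`, ordered by height: their number tends to infinity with the height,
`Ш[2]` is finite, and the average of `2 ^ rank * #Ш[2]` over the curves of height at most `H` is bounded
by a constant.  In particular the proportion of these curves for which `Ш[2]` has at least `2 ^ r`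
elements is at most `C / 2 ^ r`, uniformly in `H`.

The proof (`Pool/Agent/U409/SH`) bounds the 2-Selmer group: the classes in `H¹(ℚ, E[2])` which are
trivial in `H¹(ℚ_p, E)` for the odd `p` give pairs of square classes, the local conditions at the bad
primes are proved for `p`-adic points, and the local count is averaged over coprime pairs with the engine
of the projects RK and RT of the library, where the average of `2 ^ rank` is bounded.
-/

set_option autoImplicit false

namespace Pool.Agent.Results.MP_78d38b_nt.ShaTwoHeight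

open Finset Filter
open Pool.Agent.TH841.SH.D (ShaTor rk)

/-- the curve `y² = x³ + A x + B` over `ℚ` -/
def E (A B : ℤ) : WeierstrassCurve ℚ := ⟨0, 0, 0, (A : ℚ), (B : ℚ)⟩

open Classical in
/-- The pairs `(A, B)` of integers such that `4 A³ + 27 B² ≠ 0`, there is no prime `p` with
`p⁴ ∣ A` and `p⁶ ∣ B`, the height `max (4 |A|³) (27 B²)` is at most `H`, and `Z/2 x Z/m` embeds in
the group of the rational points of `y² = x³ + A x + B`. (The bounds `|A|, |B| ≤ H` follow from the
bound of the height. Every elliptic curve over `ℚ` is isomorphic to `E A B` for exactly one pair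
with the first two properties.) -/
noncomputable def Fam (m H : ℕ) : Finset (ℤ × ℤ) :=
  ((Icc (-(H : ℤ)) H) ×ˢ (Icc (-(H : ℤ)) H)).filter (fun c : ℤ × ℤ =>
    4 * c.1 ^ 3 + 27 * c.2 ^ 2 ≠ 0 ∧ 4 * |c.1| ^ 3 ≤ H ∧ 27 * c.2 ^ 2 ≤ H ∧
    (∀ p : ℕ, p.Prime → ¬ ((p : ℤ) ^ 4 ∣ c.1 ∧ (p : ℤ) ^ 6 ∣ c.2)) ∧
    ∃ f : ZMod 2 × ZMod m →+ (E c.1 c.2).toAffine.Point, Function.Injective f)

lemma Fam_eq {m : ℕ} (hm : m = 4 ∨ m = 6) (H : ℕ) : Fam m H = Pool.Agent.W307.RT.Cv m H := by
  classical
  unfold Fam Pool.Agent.W307.RT.Cv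
  apply filter_congr
  intro c _
  have h : Pool.Agent.W307.RT.HasT m (Pool.Agent.W307.RT.Sh c.1 c.2) ↔
      ∃ f : ZMod 2 × ZMod m →+ (E c.1 c.2).toAffine.Point, Function.Injective f := by
    rcases hm with rfl | rfl
    · exact Pool.Agent.W307.RT.tors_iff
    · exact Pool.Agent.W307.RT.tors_iff
  rw [h]

/-- **Theorem.** Let `m = 4` or `m = 6`. The number of the elliptic curves over `ℚ` of height at most
`H` with a subgroup `Z/2 x Z/m` tends to infinity with `H`, for all these curves `Ш[2]` is finite, and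
the average of `2 ^ rank * #Ш[2]` over them is bounded. -/
theorem result (m : ℕ) (hm : m = 4 ∨ m = 6) :
    Tendsto (fun H : ℕ => (Fam m H).card) atTop atTop ∧
    (∀ H : ℕ, ∀ c ∈ Fam m H, Finite (ShaTor (E c.1 c.2) 2)) ∧
    ∃ C : ℝ, ∀ H : ℕ,
      ∑ c ∈ Fam m H, (2 : ℝ) ^ rk (E c.1 c.2) * (Nat.card (ShaTor (E c.1 c.2) 2) : ℝ) ≤
        C * (Fam m H).card := by
  simp only [Fam_eq hm]
  have h : (∀ H : ℕ, ∀ c ∈ Pool.Agent.W307.RT.Cv m H,
        Pool.Agent.U409.SH.Fin2 (Pool.Agent.W307.RT.Sh c.1 c.2)) ∧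
      ∃ C : ℝ, ∀ H : ℕ, ∑ c ∈ Pool.Agent.W307.RT.Cv m H,
        (Pool.Agent.U409.SH.Qn (Pool.Agent.W307.RT.Sh c.1 c.2) : ℝ) ≤
          C * (Pool.Agent.W307.RT.Cv m H).card := by
    rcases hm with rfl | rfl
    · exact ⟨fun H c hc => Pool.Agent.U409.SH.fin_of_par Pool.Agent.U409.SH.par4' H hc,
        Pool.Agent.U409.SH.main4'⟩
    · exact ⟨fun H c hc => Pool.Agent.U409.SH.fin_of_par Pool.Agent.U409.SH.par6' H hc,
        Pool.Agent.U409.SH.main6'⟩
  refine ⟨?_, fun H c hc => Pool.Agent.U409.SH.fin_tor (h.1 H c hc), ?_⟩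
  · rcases hm with rfl | rfl
    · exact Pool.Agent.W307.RT.tendsto_of_low Pool.Agent.W29.RT.low4
    · exact Pool.Agent.W307.RT.tendsto_of_low Pool.Agent.W376.RTL.low6
  · obtain ⟨C, hC⟩ := h.2
    refine ⟨C, fun H => le_trans (le_of_eq ?_) (hC H)⟩
    refine sum_congr rfl fun c _ => ?_
    rw [← Pool.Agent.U409.SH.Mn_eq]
    unfold Pool.Agent.U409.SH.Mn
    push_cast
    rfl

end Pool.Agent.Results.MP_78d38b_nt.ShaTwoHeight
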