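import Pool.Agent.U80.GT.Den
import Pool.Agent.U80.GT.Sum
import Pool.Agent.U80.GT.Ex

/-!
# `Ш[2^∞]` is finite over all the number fields of infinite towers, for every elliptic curve with a point of
# order two and minimal Selmer groups, and an exact proportion of its twists

Let `E : y² = x³ + a x² + b x` with integers `a`, `b` such that `b` and `a² - 4b` are not squares, and let
`E_D : y² = x³ + a D x² + b D² x` be its quadratic twist. Let `s(E_D) ≥ 0` be the Selmer rank of the descent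
via the isogeny of degree two: the sum of the dimensions of the two groups of everywhere locally soluble
quartics, minus two.

An odd prime `p` dividing `b(a² - 4b)` is called neutral if `p ∣ a` and `p` divides `b` exactly once, or if
`p ∤ a` and the exponent of `p` in `b(a² - 4b)` is odd. For squarefree `D` prime to `2 b (a² - 4b)` a prime
`q ≡ 1 mod 8` not dividing `D` is called a tower prime if `b` and `a² - 4b` are not squares modulo `q`, and
`q` is a square modulo the odd primes dividing `b(a² - 4b)` that are not neutral and modulo the prime factors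
`p` of `D` with `b` or `a² - 4b` a square modulo `p`. Let `K_∞(D)` be the field generated by the `√q`.

* For ALL the number fields `K` contained in `K_∞(D)` the rank of `E_D(K)` plus the corank of
  `Ш(E_D/K)[2^∞]` is at most `[K : ℚ] · s(E_D)`; if `s(E_D) = 0` then `[K : ℚ] = 2 ^ n`, `E_D(K)` is finite,
  and `Ш(E_D/K)[2^∞]` is finite and killed by `[K : ℚ]`.
* `K_∞(D)` has infinite degree if there is a neutral prime dividing `a`, or both a neutral prime dividing `b`
  and a neutral prime dividing `a² - 4b`.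
* Let the class consist of the squarefree `D ≡ 1 mod 8` that are nonzero squares modulo all the odd primes
  dividing `b(a² - 4b)` and whose prime factors `p` are split (the same conditions for `p`) or inert (`b` and
  `a² - 4b` are not squares modulo `p`). For all these `D` the difference `s(E_D) - s(E)` is even and
  nonnegative, and it is `0` for exactly the proportion `∏_{i ≥ 0} (1 - 2^{-(2i+1)}) = 0.4194...` of them. So
  if `s(E) = 0`, then the conclusions for `s(E_D) = 0` hold for this proportion of the class. The curve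
  `y² = x³ + 7 x² + 7 x` is an example.

The proof. The local conditions of all the twists of `E_D` by products of tower primes are the same at all
places (`U80/GT/LInv`, `TInv`), so all these twists have the same Selmer groups, hence rank plus the dimension
of `Ш[2]` at most `s(E_D)`. A subfield of a multiquadratic field is generated by square roots, the rank over
it is at most the sum of the ranks of the twists, and `Ш(E_D/K)` maps to the sum of the `Ш` of the twists with
kernel killed by `[K : ℚ]` (starting library), which bounds its corank (`U80/GT/Crk`). For the class, the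
Selmer groups are the kernel of a matrix over the field with two elements (`U80/GT/Cnt`, `Main`), whose
distribution is the theorem of the project `U115/GD` of helper115 and others.
-/

set_option autoImplicit false

open scoped Classical

open WeierstrassCurve NumberField

namespace Pool.Agent.Results.MP_78d38b_nt.TowersEveryCurve

open Pool.Agent.TH841.NF.D (Sha)

/-- the curve `E_D : y² = x³ + a D x² + b D² x` over `K` -/
def curve (a b : ℤ) (D : ℕ) (K : Type) [Field K] : WeierstrassCurve K :=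
  { a₁ := 0, a₂ := ((a * D : ℤ) : K), a₃ := 0, a₄ := ((b * (D : ℤ) ^ 2 : ℤ) : K), a₆ := 0 }

/-- the rank of `E_D(K)` -/
noncomputable def rank (a b : ℤ) (D : ℕ) (K : Type) [Field K] : ℕ :=
  Module.finrank ℤ (curve a b D K).toAffine.Point

/-- the everywhere locally soluble quartics `N² = d M⁴ + a M² e² + (b / d) e⁴` -/
def classes (a b : ℤ) : Set ℤ :=
  {d : ℤ | Squarefree d ∧ d ∣ b ∧
    (∃ N M e : ℝ, (M ≠ 0 ∨ e ≠ 0) ∧
      N ^ 2 = (d : ℝ) * M ^ 4 + (a : ℝ) * M ^ 2 * e ^ 2 + ((b / d : ℤ) : ℝ) * e ^ 4) ∧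
    ∀ (p : ℕ) [Fact p.Prime], ∃ N M e : ℚ_[p], (M ≠ 0 ∨ e ≠ 0) ∧
      N ^ 2 = (d : ℚ_[p]) * M ^ 4 + (a : ℚ_[p]) * M ^ 2 * e ^ 2
        + ((b / d : ℤ) : ℚ_[p]) * e ^ 4}

/-- the Selmer rank of the descent via the isogeny of degree two for `E_D` -/
noncomputable def s (a b : ℤ) (D : ℕ) : ℤ :=
  (Nat.log 2 (classes (a * D) (b * (D : ℤ) ^ 2)).ncard : ℤ) +
    (Nat.log 2 (classes (-2 * (a * D)) ((a * D) ^ 2 - 4 * (b * (D : ℤ) ^ 2))).ncard : ℤ) - 2

/-- the neutral primes -/
def Neutral (a b : ℤ) (p : ℕ) : Prop :=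
  ((p : ℤ) ∣ a ∧ (p : ℤ) ∣ b ∧ ¬ (p : ℤ) ^ 2 ∣ b) ∨
    (¬ (p : ℤ) ∣ a ∧ Odd (padicValInt p (b * (a ^ 2 - 4 * b))))

/-- squarefree and prime to `2 b (a² - 4b)` -/
def Twist (a b : ℤ) (D : ℕ) : Prop :=
  Squarefree D ∧ ∀ p ∈ D.primeFactors, p ≠ 2 ∧ ¬ (p : ℤ) ∣ b * (a ^ 2 - 4 * b)

/-- the tower primes of `E_D` -/
def TowerPrime (a b : ℤ) (D q : ℕ) : Prop :=
  q.Prime ∧ q % 8 = 1 ∧ ¬ q ∣ D ∧ ¬ IsSquare (b : ZMod q) ∧
    ¬ IsSquare ((a ^ 2 - 4 * b : ℤ) : ZMod q) ∧
    (∀ p : ℕ, p.Prime → p ≠ 2 → (p : ℤ) ∣ b * (a ^ 2 - 4 * b) →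
      Neutral a b p ∨ IsSquare (q : ZMod p)) ∧
    ∀ p ∈ D.primeFactors, IsSquare (q : ZMod p) ∨
      (¬ IsSquare (b : ZMod p) ∧ ¬ IsSquare ((a ^ 2 - 4 * b : ℤ) : ZMod p))

/-- the field generated by the square roots of the tower primes -/
noncomputable def Tower (a b : ℤ) (D : ℕ) : IntermediateField ℚ ℂ :=
  IntermediateField.adjoin ℚ {z : ℂ | ∃ q : ℕ, TowerPrime a b D q ∧ z ^ 2 = (q : ℂ)}

/-- there are neutral primes for `b` and for `a² - 4b` -/
def HasNeutral (a b : ℤ) : Prop :=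
  (∃ p : ℕ, p.Prime ∧ p ≠ 2 ∧ (p : ℤ) ∣ a ∧ (p : ℤ) ∣ b ∧ ¬ (p : ℤ) ^ 2 ∣ b) ∨
    ((∃ p : ℕ, p.Prime ∧ p ≠ 2 ∧ ¬ (p : ℤ) ∣ a ∧ Odd (padicValInt p b)) ∧
      ∃ p : ℕ, p.Prime ∧ p ≠ 2 ∧ ¬ (p : ℤ) ∣ a ∧ Odd (padicValInt p (a ^ 2 - 4 * b)))

/-- `Ш(E_D/K)` contains `(ℤ/2^m)^q` for all `m`, for instance since it contains `(ℚ₂/ℤ₂)^q` -/
def HasCorank (a b : ℤ) (D : ℕ) (K : Type) [Field K] [NumberField K] (q : ℕ) : Prop :=
  ∀ m : ℕ, ∃ f : (Fin q → ZMod (2 ^ m)) →+ Sha (curve a b D K), Function.Injective f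

/-- the 2-primary part of `Ш(E_D/K)` -/
def shaTwo (a b : ℤ) (D : ℕ) (K : Type) [Field K] [NumberField K] : Set (Sha (curve a b D K)) :=
  {x | ∃ k : ℕ, 2 ^ k • x = 0}

/-- `[K : ℚ]` is a power of two, `E_D(K)` is finite, `Ш(E_D/K)[2^∞]` is finite and killed by `[K : ℚ]` -/
def FiniteTwo (a b : ℤ) (D : ℕ) (K : Type) [Field K] [NumberField K] : Prop :=
  (∃ n : ℕ, Module.finrank ℚ K = 2 ^ n) ∧ Finite (curve a b D K).toAffine.Point ∧
    (shaTwo a b D K).Finite ∧ ∀ x ∈ shaTwo a b D K, Module.finrank ℚ K • x = 0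

/-- `1` modulo `8` and a nonzero square modulo the odd primes dividing `b (a² - 4b)` -/
def Res (a b : ℤ) (n : ℕ) : Prop := n % 8 = 1 ∧ ∀ l : ℕ, l.Prime → l ≠ 2 →
  (l : ℤ) ∣ b * (a ^ 2 - 4 * b) → ¬ l ∣ n ∧ IsSquare (n : ZMod l)

/-- the class: the prime factors are split or inert -/
def Class (a b : ℤ) (D : ℕ) : Prop := Squarefree D ∧ Res a b D ∧
  ∀ p ∈ D.primeFactors, Res a b p ∨
    (p ≠ 2 ∧ ¬ IsSquare (b : ZMod p) ∧ ¬ IsSquare ((a ^ 2 - 4 * b : ℤ) : ZMod p))

/-- the numbers `D ≤ X` of the class with the property `Q` -/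
noncomputable def Numbers (a b : ℤ) (Q : ℕ → Prop) (X : ℕ) : Finset ℕ :=
  (Finset.Icc 1 X).filter fun D => Class a b D ∧ Q D

/-- the constant `0.4194...` -/
noncomputable def cc : ℝ := ∏' i : ℕ, (1 - (1 / 2 : ℝ) ^ (2 * i + 1))

section proof

open Pool.Agent.U80.GT
open Pool.Agent.Y682 (gc)

lemma s_eq (a b : ℤ) (D : ℕ) : s a b D = SR (a * D) (b * (D : ℤ) ^ 2) := by
  unfold s SR
  have h : ∀ a b : ℤ, classes a b = Pool.Agent.U80.NP.Sel a b := fun a b =>
    Pool.Agent.U80.NP.qs_eq a b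
  rw [h, h]

lemma s_one (a b : ℤ) : s a b 1 = SR a b := by
  rw [s_eq]
  congr 1
  · simp
  · simp

lemma class_iff (a b : ℤ) (D : ℕ) : Class a b D ↔ Pool.Agent.U115.GE.Class a b D := by
  refine and_congr_right fun _ => and_congr_right fun _ => forall₂_congr fun p hp => ?_
  have hpp := Nat.prime_of_mem_primeFactors hp
  exact or_congr ⟨fun h => ⟨hpp, h⟩, fun h => h.2⟩ ⟨fun h => ⟨hpp, h⟩, fun h => h.2⟩

lemma mem_num (a b : ℤ) (Q : ℕ → Prop) (X D : ℕ) :
    D ∈ Numbers a b Q X ↔ D ∈ Finset.Icc 1 X ∧ Class a b D ∧ Q D := by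
  unfold Numbers
  exact Finset.mem_filter

lemma curve_eq (a b : ℤ) (D : ℕ) (K : Type) [Field K] :
    curve a b D K = gc (a * D) (b * (D : ℤ) ^ 2) K := rfl

lemma rank_eq (a b : ℤ) (D : ℕ) (K : Type) [Field K] [NumberField K] :
    rank a b D K = Rg a b K D := by
  have key : ∀ (W : WeierstrassCurve K) (i j : DecidableEq K),
    @Module.finrank ℤ W.toAffine.Point _
      (@WeierstrassCurve.Affine.Point.instAddCommGroup K _ W.toAffine i).toAddCommMonoid
      (@AddCommGroup.toIntModule _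
        (@WeierstrassCurve.Affine.Point.instAddCommGroup K _ W.toAffine i)) =
    @Module.finrank ℤ W.toAffine.Point _
      (@WeierstrassCurve.Affine.Point.instAddCommGroup K _ W.toAffine j).toAddCommMonoid
      (@AddCommGroup.toIntModule _
        (@WeierstrassCurve.Affine.Point.instAddCommGroup K _ W.toAffine j)) := by
    intro W i j
    have h : i = j := Subsingleton.elim i j
    subst h
    rfl
  exact key (curve a b D K) _ _

theorem all_of {a b : ℤ} (hb : b ≠ 0) (hc : a ^ 2 - 4 * b ≠ 0) {D : ℕ} (hD : Twist a b D)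
    (K : IntermediateField ℚ ℂ) (hK : K ≤ Tower a b D) (hfd : FiniteDimensional ℚ K) :
    ∃ _ : NumberField K,
      (∀ q : ℕ, HasCorank a b D K q → (rank a b D K + q : ℤ) ≤ Module.finrank ℚ K * s a b D) ∧
      (s a b D = 0 → FiniteTwo a b D K) := by
  have hN : NumberField K := { to_charZero := inferInstance, to_finiteDimensional := hfd }
  have hDn : Dn a b D := hD
  have hDz : (D : ℤ) ≠ 0 := by exact_mod_cast hD.1.ne_zero
  have hg := g_ne hb hc hDz
  obtain ⟨P, hP1, hP2⟩ := sub_TF (a := a) (b := b) (D := D) K hK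
  obtain ⟨t, ht, hNN⟩ := sr_nat hg.1 hg.2
  have h1 := all_rank hb hc hDn hNN hP1 K hP2
  refine ⟨hN, fun q hq => ?_, fun h0 => ?_⟩
  · have h4 := all_cork hb hc hDn hNN hP1 K hP2 hq
    rw [rank_eq, s_eq, ht]
    exact_mod_cast h4
  · have ht0 : t = 0 := by
      rw [s_eq, ht] at h0
      exact_mod_cast h0
    subst ht0
    rw [mul_zero] at h1
    have h2 := fin_of_zero hb hc hDz K (Nat.le_zero.1 h1)
    obtain ⟨n, hn, h3⟩ := all_sha hb hc hDn (by rw [hNN]; norm_num) hP1 K hP2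
    have e : shaTwo a b D K = {x : Sha (curve a b D K) | (2 ^ n : ℕ) • x = 0} := by
      ext x
      constructor
      · rintro ⟨k, hk⟩
        exact h3 k x hk
      · intro hx
        exact ⟨n, hx⟩
    refine ⟨⟨n, hn⟩, h2, ?_, fun x hx => ?_⟩
    · rw [e]
      exact Set.finite_coe_iff.1 (sha_pow_fin (K := K) hg.1 hg.2 n)
    · rw [hn]
      rw [e] at hx
      exact hx

end proof

/-- **Theorem.** -/
theorem result :
    (∀ a b : ℤ, ¬ IsSquare b → ¬ IsSquare (a ^ 2 - 4 * b) →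
      (∀ D : ℕ, Twist a b D → ∀ K : IntermediateField ℚ ℂ, K ≤ Tower a b D →
        FiniteDimensional ℚ K → ∃ _ : NumberField K,
          (∀ q : ℕ, HasCorank a b D K q →
            (rank a b D K + q : ℤ) ≤ Module.finrank ℚ K * s a b D) ∧
          (s a b D = 0 → FiniteTwo a b D K)) ∧
      (HasNeutral a b → ∀ D : ℕ, Twist a b D →
        {q : ℕ | TowerPrime a b D q}.Infinite ∧ ¬ FiniteDimensional ℚ (Tower a b D)) ∧
      (∀ D : ℕ, Class a b D → Twist a b D ∧ ∃ k : ℕ, s a b D = s a b 1 + 2 * k) ∧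
      Filter.Tendsto (fun X : ℕ => ((Numbers a b (fun D => s a b D = s a b 1) X).card : ℝ) /
        ((Numbers a b (fun _ => True) X).card : ℝ)) Filter.atTop (nhds cc)) ∧
    0.4194 < cc ∧ cc < 0.4195 ∧ s 7 7 1 = 0 ∧ HasNeutral 7 7 := by
  refine ⟨fun a b hb hc => ?_, Pool.Agent.Y948.CQ.t_C2.2.2.2.1, Pool.Agent.Y948.CQ.t_C2.2.2.2.2,
    ?_, Or.inl ⟨7, by norm_num, by norm_num, by norm_num, by norm_num, by norm_num⟩⟩
  · have hb0 : b ≠ 0 := by
      rintro rfl
      exact hb ⟨0, by norm_num⟩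
    have hc0 : a ^ 2 - 4 * b ≠ 0 := by
      intro h
      exact hc ⟨0, by rw [h]; norm_num⟩
    refine ⟨fun D hD K hK hfd => all_of hb0 hc0 hD K hK hfd, fun hn D hD => ?_, fun D hD => ?_, ?_⟩
    · have h := Pool.Agent.U80.GT.tp_inf hb0 hc0 hD hn
      exact ⟨h, Pool.Agent.U80.GT.TF_inf h⟩
    · obtain ⟨h1, h2⟩ := (Pool.Agent.U80.GT.class_cl hb hc D).1 ((class_iff a b D).1 hD)
      refine ⟨Pool.Agent.U80.GT.dn_of_class hb0 hc0 h1 h2, ?_⟩
      obtain ⟨k, hk, -⟩ := Pool.Agent.U80.GT.sr_class hb0 hc0 h1 h2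
      exact ⟨k, by rw [s_eq, s_one, hk]⟩
    · refine (Pool.Agent.U80.GT.den hb hc).congr fun X =>
        congrArg₂ (fun a b : ℕ => (a : ℝ) / (b : ℝ)) ?_ ?_
      · refine congrArg Finset.card (Finset.ext fun D => Finset.mem_filter.trans (Iff.trans ?_
          (mem_num a b (fun D => s a b D = s a b 1) X D).symm))
        show _ ↔ _ ∧ _ ∧ s a b D = s a b 1
        rw [class_iff, s_eq a b D, s_one a b]
      · refine congrArg Finset.card (Finset.ext fun D => Finset.mem_filter.trans (Iff.trans ?_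
          (mem_num a b (fun _ => True) X D).symm))
        show _ ↔ _ ∧ _ ∧ True
        rw [class_iff, and_true]
  · rw [s_one]
    obtain ⟨t, ht, hNN⟩ := Pool.Agent.U80.GT.sr_nat (a := 7) (b := 7) (by norm_num) (by norm_num)
    rw [Pool.Agent.U80.GT.nn77] at hNN
    have h0 : t = 0 := by
      by_contra hne
      have := Nat.one_lt_two_pow hne
      omega
    rw [ht, h0]
    rfl

end Pool.Agent.Results.MP_78d38b_nt.TowersEveryCurve
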