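import Pool.Agent.U693.UN.Om
import Pool.Agent.U693.SH.Sha

/-!
# The 2-primary part of the Tate-Shafarevich group is trivial over all number fields in an infinite
# Galois extension, for a positive proportion of all elliptic curves over `ℚ`

Let `K / ℚ` be any finite Galois extension of 2-power degree in which the prime `2` is unramified.

Theorem. There are a finite set `S` of primes, all `1` modulo `8`, and `c > 0`, such that at least `c` times
the number of ALL elliptic curves `E : y ^ 2 = x ^ 3 + A x + B` over `ℚ`, ordered by height, have the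
following property. Let `C = C(E, S)` be the class of all the finite Galois extensions `M / ℚ` of 2-power
degree in which `2` is unramified, in which all `Q ∈ S` split completely and in which only such primes `ℓ`
are ramified modulo which `x ^ 3 + A x + B` has no zero, and let `Ω` be the union of the images of the
`M ∈ C` in the algebraic closure of `ℚ`. Then
* `K` is in `C`, the class `C` is closed under composita, `Ω` is a field, stable under all automorphisms,
  and for a set of primes `ℓ` of positive lower density `ℚ(√ℓ)` is in `C` (so that `Ω` is an infinite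
  extension of `ℚ`);
* for ALL number fields `F` in `Ω` the Tate-Shafarevich group `Ш(E / F)` (over all places) has no element
  of 2-power order, and `E(F) = 0`. In particular this holds for all `M ∈ C`.

The difference to the starting file `MP_78d38b_nt.PositiveProportionUnramified` (project PV of
helper922), where the field is given first and the set of curves depends on it, is the order of the
quantifiers: here one set of curves of positive density works for infinitely many fields, of unbounded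
degree and with arbitrarily many ramified primes; moreover subfields which are not Galois over `ℚ` are
treated, and `Ш` is the group of all places, as in the question.

Proof. As in project PV we consider pairs `(a, b)` with squarefree `4 a ^ 3 + 27 b ^ 2`, `4 ∣ a - b`, for
which `x ^ 3 + a x + b` has no zero modulo `2`, `3` and the prime divisors of a discriminant which belongs
to `K`, and is `x (x ^ 2 + s)`, `- s` not a square, modulo `Q ∈ S`. Let `θ` be a zero, `L = ℚ(θ)`. For most
pairs lattices, reciprocity and linear algebra give a subset `J` of `S` such that every element of `L`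
modulo squares with square norm, with even valuations at ALL primes which do not divide a `Q ∈ J`, which
comes from a point at `2` and satisfies the local conditions of the twist by `∏ Q ∈ J, Q` at `Q ∈ J`, is
trivial. Now let `M` be in the class of the twisted curve. The 2-Selmer group over `M` is a group of
classes in `L ⊗ M`; as `x ^ 3 + a x + b` has no zero modulo the ramified primes they are primes of degree
three or are inert in the steps, and the 2-group `Gal(M / ℚ)` acts on the group with invariants in the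
group over `ℚ`, which is trivial; so it is trivial (files `Pool/Agent/U693/UN`). For a subfield `F` of `M`
the kernel of `Ш(E / F) → Ш(E / M)` is a subgroup of `H ^ 1 (Gal(M / F), E(M))`, which is zero because
`E(M) = 0` (files `Pool/Agent/U693/SH`). The positive density of the `ℓ` is Chebotarev's theorem
(`Pool.Agent.W401.Cheb`, `Pool.Agent.Q283.TW.Dens`).
-/

set_option autoImplicit false
set_option linter.all false

namespace Pool.Agent.Results.MP_78d38b_nt.UniformOverTwoExtensions

open Filter NumberField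
open scoped Classical

/-- The equation `y ^ 2 = x ^ 3 + A x + B` with integers `A`, `B` defines an elliptic curve, and
there is no prime `p` with `p ^ 4 ∣ A` and `p ^ 6 ∣ B`. Every elliptic curve over `ℚ` is isomorphic to
exactly one of these. -/
structure IsMinimal (A B : ℤ) : Prop where
  elliptic : 4 * A ^ 3 + 27 * B ^ 2 ≠ 0
  minimal : ∀ p : ℕ, p.Prime → ¬ ((p : ℤ) ^ 4 ∣ A ∧ (p : ℤ) ^ 6 ∣ B)

/-- The height. -/
def height (p : ℤ × ℤ) : ℤ := max (4 * |p.1| ^ 3) (27 * p.2 ^ 2)

/-- The set of all elliptic curves over `ℚ` of height at most `X`. -/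
def Curves (X : ℕ) : Set (ℤ × ℤ) := {p | IsMinimal p.1 p.2 ∧ height p ≤ X}

/-- The curve `y ^ 2 = x ^ 3 + A x + B` over `F`, for `p = (A, B)`. -/
def curve (F : Type) [Field F] (p : ℤ × ℤ) : WeierstrassCurve F := ⟨0, 0, 0, (p.1 : F), (p.2 : F)⟩

/-- `Ш(E / F)[2 ^ ∞] = 0` and `E(F) = 0`. Here `Ш(E / F)` is the group of all classes of continuous
cocycles of the absolute Galois group of `F` which are trivial over the completions of `F` at all places,
finite or infinite. -/
structure TwoPartTrivial (F : Type) [Field F] [NumberField F] (p : ℤ × ℤ) : Prop where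
  sha : ∀ (n : ℕ) (x : Pool.Agent.TH841.NF.D.Sha (curve F p)), 2 ^ n • x = 0 → x = 0
  points : Subsingleton (curve F p).toAffine.Point

/-- The class `C(E, S)` for `E : y ^ 2 = x ^ 3 + A x + B`, `p = (A, B)`: the number fields `M` which are
Galois over `ℚ`, of degree a power of two, in which `2` is unramified (no prime ideal `𝔭` has `2 ∈ 𝔭 ^ 2`),
in which all `q ∈ S` split completely (they are unramified, and every integer of `M` is congruent to
a rational integer modulo each prime over `q`) and in which only such primes `ℓ` are ramified modulo which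
`x ^ 3 + A x + B` has no zero. -/
structure InClass (S : Finset ℕ) (p : ℤ × ℤ) (M : Type) [Field M] [NumberField M] : Prop where
  galois : IsGalois ℚ M
  degree : ∃ n : ℕ, Module.finrank ℚ M = 2 ^ n
  two : ∀ 𝔭 : Ideal (𝓞 M), 𝔭.IsPrime → (2 : 𝓞 M) ∉ 𝔭 ^ 2
  split : ∀ q ∈ S, ∀ 𝔭 : Ideal (𝓞 M), 𝔭.IsPrime → (q : 𝓞 M) ∈ 𝔭 →
    (q : 𝓞 M) ∉ 𝔭 ^ 2 ∧ ∀ x : 𝓞 M, ∃ c : ℤ, x - (c : 𝓞 M) ∈ 𝔭
  ramified : ∀ ℓ : ℕ, ℓ.Prime → (∃ 𝔭 : Ideal (𝓞 M), 𝔭.IsPrime ∧ (ℓ : 𝓞 M) ∈ 𝔭 ^ 2) →
    ∀ z : ℤ, ¬ (ℓ : ℤ) ∣ z ^ 3 + p.1 * z + p.2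

/-- Every number field which is generated by a square root of `ℓ` is in the class. -/
def HasQuadratic (S : Finset ℕ) (p : ℤ × ℤ) (ℓ : ℕ) : Prop :=
  ∀ (M : Type) [Field M] [NumberField M] (r : M), r ^ 2 = (ℓ : M) →
    (∀ T : Subfield M, r ∈ T → T = ⊤) → InClass S p M

/-- The union `Ω` of all images of fields in the class in the algebraic closure of `ℚ`. -/
def Omega (S : Finset ℕ) (p : ℤ × ℤ) : Set (AlgebraicClosure ℚ) :=
  {x | ∃ (M : Type) (_ : Field M) (_ : NumberField M) (φ : M →+* AlgebraicClosure ℚ),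
    InClass S p M ∧ x ∈ Set.range φ}

/-- The property of the curve `p`. -/
structure Good (K : Type) [Field K] [NumberField K] (S : Finset ℕ) (p : ℤ × ℤ) : Prop where
  /-- For ALL number fields in `Ω`: `Ш(E / F)[2 ^ ∞] = 0` and `E(F) = 0`. -/
  trivial : ∀ (F : Type) [Field F] [NumberField F] (φ : F →+* AlgebraicClosure ℚ),
    (∀ x, φ x ∈ Omega S p) → TwoPartTrivial F p
  /-- `Ω` is a field, stable under all automorphisms. -/
  omega : ∃ T : Subfield (AlgebraicClosure ℚ), (T : Set (AlgebraicClosure ℚ)) = Omega S p ∧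
    ∀ σ : AlgebraicClosure ℚ →+* AlgebraicClosure ℚ, ∀ x ∈ T, σ x ∈ T
  /-- `K` is in the class. -/
  base : InClass S p K
  /-- The class is closed under composita. -/
  composita : ∀ (M₁ M₂ N : Type) [Field M₁] [NumberField M₁] [Field M₂] [NumberField M₂] [Field N]
    [NumberField N] [Algebra M₁ N] [Algebra M₂ N],
    (∀ T : Subfield N, (∀ x : M₁, algebraMap M₁ N x ∈ T) → (∀ x : M₂, algebraMap M₂ N x ∈ T) →
      T = ⊤) → InClass S p M₁ → InClass S p M₂ → InClass S p N
  /-- A set of primes `ℓ` of positive lower density for which `ℚ(√ℓ)` is in the class and `√ℓ ∈ Ω`. -/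
  many : ∃ δ : ℝ, 0 < δ ∧ ∀ᶠ N : ℕ in atTop, δ * (Nat.primeCounting N : ℝ) ≤
    (((Finset.range (N + 1)).filter fun ℓ => ℓ.Prime ∧ HasQuadratic S p ℓ ∧
      ∀ r : AlgebraicClosure ℚ, r ^ 2 = (ℓ : AlgebraicClosure ℚ) → r ∈ Omega S p).card : ℝ)

theorem crv_iff (X : ℕ) (p : ℤ × ℤ) : Pool.Agent.N922.PQ.Crv X p.1 p.2 ↔ p ∈ Curves X := by
  constructor
  · rintro ⟨h1, h2, h3, h4⟩
    exact ⟨⟨h1, h2⟩, max_le h3 h4⟩
  · rintro ⟨⟨h1, h2⟩, h3⟩
    exact ⟨h1, h2, (le_max_left _ _).trans h3, (le_max_right _ _).trans h3⟩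

theorem nonempty {X : ℕ} (hX : 27 ≤ X) : ((1, 1) : ℤ × ℤ) ∈ Curves X := by
  refine ⟨⟨by norm_num, ?_⟩, ?_⟩
  · rintro p hp ⟨h, -⟩
    have h1 : ((p : ℤ)) ∣ 1 := (dvd_pow_self (p : ℤ) (by norm_num)).trans h
    have h2 : p ∣ 1 := by exact_mod_cast h1
    exact hp.one_lt.ne' (Nat.dvd_one.1 h2)
  · have : height ((1, 1) : ℤ × ℤ) = 27 := by
      simp [height]
    rw [this]
    exact_mod_cast hX

theorem isPr_iff {q : ℕ} : Pool.Agent.N922.PQ.IsPr (q : ℤ) ↔ q.Prime := by
  constructor
  · intro h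
    exact Nat.prime_iff_prime_int.2 h.2
  · intro h
    exact ⟨by exact_mod_cast h.pos, Nat.prime_iff_prime_int.1 h⟩

/-- The class in terms of the class of the library. -/
theorem class_iff {S : Finset ℤ} (hS : ∀ Q ∈ S, Pool.Agent.N922.PQ.IsPr Q) (p : ℤ × ℤ) (M : Type)
    [Field M] [NumberField M] : InClass (S.image Int.toNat) p M ↔
      Pool.Agent.U693.UN.InClass S p.1 p.2 M := by
  have hto : ∀ P : ℤ, Pool.Agent.N922.PQ.IsPr P → ((P.toNat : ℕ) : ℤ) = P := fun P hP =>
    Int.toNat_of_nonneg hP.1.le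
  constructor
  · intro h
    refine ⟨h.galois, h.degree, h.two, fun Q hQ 𝔭 h𝔭 hm => ?_, fun P hP hex => ?_⟩
    · have h1 := h.split Q.toNat (Finset.mem_image_of_mem _ hQ) 𝔭 h𝔭
      have e : ((Q.toNat : ℕ) : 𝓞 M) = (Q : 𝓞 M) := by
        rw [← Int.cast_natCast, hto Q (hS Q hQ)]
      rw [e] at h1
      exact h1 hm
    · have h1 := h.ramified P.toNat (isPr_iff.1 (by rw [hto P hP]; exact hP))
      have e : ((P.toNat : ℕ) : 𝓞 M) = (P : 𝓞 M) := by
        rw [← Int.cast_natCast, hto P hP]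
      rw [e, hto P hP] at h1
      exact h1 hex
  · intro h
    refine ⟨h.galois, h.degree, h.two, fun q hq 𝔭 h𝔭 hm => ?_, fun ℓ hℓ hex => ?_⟩
    · obtain ⟨Q, hQ, rfl⟩ := Finset.mem_image.1 hq
      have h1 := h.split Q hQ 𝔭 h𝔭
      have e : ((Q.toNat : ℕ) : 𝓞 M) = (Q : 𝓞 M) := by
        rw [← Int.cast_natCast, hto Q (hS Q hQ)]
      rw [e] at hm ⊢
      exact h1 hm
    · have h1 := h.ram (ℓ : ℤ) (isPr_iff.2 hℓ)
      rw [Int.cast_natCast] at h1
      exact h1 hex

theorem omega_eq {S : Finset ℤ} (hS : ∀ Q ∈ S, Pool.Agent.N922.PQ.IsPr Q) (p : ℤ × ℤ) :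
    Omega (S.image Int.toNat) p = Pool.Agent.U693.UN.Om (AlgebraicClosure ℚ) S p.1 p.2 := by
  ext x
  constructor
  · rintro ⟨M, i1, i2, φ, hM, hx⟩
    exact ⟨M, i1, i2, φ, (class_iff hS p M).1 hM, hx⟩
  · rintro ⟨M, i1, i2, φ, hM, hx⟩
    exact ⟨M, i1, i2, φ, (class_iff hS p M).2 hM, hx⟩

/-- Fields which can be embedded in a member of the class. -/
theorem trivial_of {F M : Type} [Field F] [NumberField F] [Field M] [NumberField M] [IsGalois ℚ M]
    (ψ : F →+* M) {p : ℤ × ℤ} (hd : 4 * p.1 ^ 3 + 27 * p.2 ^ 2 ≠ 0)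
    (h : Pool.Agent.N922.PQ.GoodV (M := M) (𝓞 M) p) : TwoPartTrivial F p := by
  letI : Algebra F M := ψ.toAlgebra
  haveI : IsScalarTower ℚ F M := IsScalarTower.of_algebraMap_eq fun x => by simp
  haveI : IsGalois F M := IsGalois.tower_top_of_isGalois ℚ F M
  refine ⟨fun n x hx => Pool.Agent.U693.SH.sha_down (M := M) h.2.1 h.2.2 n x hx, ?_⟩
  have hbc : (Pool.Agent.N874.PP.sW (p.1 : M) (p.2 : M)).baseChange M = curve M p := by
    apply WeierstrassCurve.ext <;>
      simp [Pool.Agent.N874.PP.sW, curve, WeierstrassCurve.baseChange]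
  have key : ∀ W : WeierstrassCurve M,
      (Pool.Agent.N874.PP.sW (p.1 : M) (p.2 : M)).baseChange M = W →
      Subsingleton W.toAffine.Point := by
    rintro W rfl
    exact h.2.1
  have hM := key _ hbc
  have hdF : ∀ (L : Type) [Field L] [CharZero L],
      4 * (curve L p).a₄ ^ 3 + 27 * (curve L p).a₆ ^ 2 ≠ 0 := by
    intro L _ _
    show (4 : L) * (p.1 : L) ^ 3 + 27 * (p.2 : L) ^ 2 ≠ 0
    exact_mod_cast hd
  rw [Pool.Agent.U693.UN.np_iff (curve M p) rfl rfl rfl (hdF M)] at hM
  rw [Pool.Agent.U693.UN.np_iff (curve F p) rfl rfl rfl (hdF F)]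
  intro x y he
  apply hM (ψ x) (ψ y)
  have h5 : y ^ 2 = x ^ 3 + (p.1 : F) * x + (p.2 : F) := he
  have h6 := congrArg ψ h5
  show (ψ y) ^ 2 = (ψ x) ^ 3 + (p.1 : M) * ψ x + (p.2 : M)
  simpa using h6

/-- For every Galois extension `K / ℚ` of degree `2 ^ n` in which `2` is unramified there are a finite
set `S` of primes, all `1` modulo `8`, and `c > 0` such that for all large `X` at least `c` times the number of
all elliptic curves `E` over `ℚ` of height at most `X` have the property `Good K S`: `Ш(E / F)[2 ^ ∞] = 0`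
and `E(F) = 0` for ALL number fields `F` in the infinite Galois extension `Ω`, the union of all the fields
in the class `C(E, S)`; and `K` is in this class, which is closed under composita and contains `ℚ(√ℓ)` for
a set of primes `ℓ` of positive lower density. -/
theorem result (K : Type) [Field K] [NumberField K] [IsGalois ℚ K] (n : ℕ)
    (hn : Module.finrank ℚ K = 2 ^ n)
    (h2 : ∀ 𝔭 : Ideal (𝓞 K), 𝔭.IsPrime → (2 : 𝓞 K) ∉ 𝔭 ^ 2) :
    (∀ X : ℕ, (Curves X).Finite) ∧
    ∃ S : Finset ℕ, (∀ q ∈ S, q.Prime ∧ q % 8 = 1) ∧ ∃ c : ℝ, 0 < c ∧ ∀ᶠ X : ℕ in atTop,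
      0 < (Curves X).ncard ∧
      c * ((Curves X).ncard : ℝ) ≤ (({p ∈ Curves X | Good K S p}).ncard : ℝ) := by
  have hset : ∀ X : ℕ, Curves X = {p : ℤ × ℤ | Pool.Agent.N922.PQ.Crv X p.1 p.2} := by
    intro X
    ext p
    exact (crv_iff X p).symm
  have hfin : ∀ X : ℕ, (Curves X).Finite := fun X => by
    rw [hset]
    exact Pool.Agent.N922.PQ.crv_fin X
  refine ⟨hfin, ?_⟩
  obtain ⟨S, hS, c, hc, X₀, h⟩ := Pool.Agent.U693.UN.finalU K hn h2
  have hSp : ∀ Q ∈ S, Pool.Agent.N922.PQ.IsPr Q := fun Q hQ => (hS Q hQ).1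
  refine ⟨S.image Int.toNat, ?_, c, hc, ?_⟩
  · intro q hq
    obtain ⟨Q, hQ, rfl⟩ := Finset.mem_image.1 hq
    obtain ⟨h3, h4⟩ := hS Q hQ
    have e : ((Q.toNat : ℕ) : ℤ) = Q := Int.toNat_of_nonneg h3.1.le
    refine ⟨isPr_iff.1 (by rw [e]; exact h3), by omega⟩
  filter_upwards [eventually_ge_atTop (max X₀ 27)] with X hX
  refine ⟨(Set.ncard_pos (hfin X)).2 ⟨_, nonempty ((le_max_right _ _).trans hX)⟩, ?_⟩
  have h1 := (h X ((le_max_left _ _).trans hX)).2
  rw [← hset] at h1
  refine h1.trans ?_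
  have h3 : {p : ℤ × ℤ | Pool.Agent.N922.PQ.Crv X p.1 p.2 ∧
      (Pool.Agent.U693.UN.InClass S p.1 p.2 K ∧
        (∀ z : ℤ, ¬ (2 : ℤ) ∣ z ^ 3 + p.1 * z + p.2) ∧
        ∀ (M : Type) [Field M] [NumberField M], Pool.Agent.U693.UN.InClass S p.1 p.2 M →
          Pool.Agent.N922.PQ.GoodV (M := M) (𝓞 M) p)} ⊆
        {p ∈ Curves X | Good K (S.image Int.toNat) p} := by
    rintro p ⟨hp, hK, hnz, hgood⟩
    have hpC := (crv_iff X p).1 hp
    have hd : 4 * p.1 ^ 3 + 27 * p.2 ^ 2 ≠ 0 := hpC.1.elliptic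
    have homega := omega_eq hSp p
    refine ⟨hpC, ?_⟩
    refine ⟨?_, ?_, (class_iff hSp p K).2 hK, ?_, ?_⟩
    · intro F _ _ φ hφ
      rw [homega] at hφ
      obtain ⟨M, i1, i2, hM, ⟨ψ⟩⟩ := Pool.Agent.U693.UN.om_sub φ hφ
      haveI := hM.galois
      exact trivial_of ψ hd (hgood M hM)
    · obtain ⟨T, hT⟩ := Pool.Agent.U693.UN.om_field hSp
        ((IsAlgClosed.lift : K →ₐ[ℚ] AlgebraicClosure ℚ) : K →+* AlgebraicClosure ℚ) hK
      have hmem : ∀ x, x ∈ T ↔ x ∈ Pool.Agent.U693.UN.Om (AlgebraicClosure ℚ) S p.1 p.2 := by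
        intro x
        rw [← hT]
        rfl
      refine ⟨T, by rw [hT, homega], ?_⟩
      intro σ x hx
      rw [hmem] at hx ⊢
      exact Pool.Agent.U693.UN.om_stable σ hx
    · intro M₁ M₂ N _ _ _ _ _ _ _ _ hg h₁ h₂
      have h₁' := (class_iff hSp p M₁).1 h₁
      have h₂' := (class_iff hSp p M₂).1 h₂
      haveI := h₁'.galois
      haveI := h₂'.galois
      exact (class_iff hSp p N).2 (Pool.Agent.U693.UN.InClass.comp hSp hg h₁' h₂')
    · obtain ⟨δ, hδ, hev⟩ := Pool.Agent.U693.UN.dens S (fun Q hQ => (hSp Q hQ).2.ne_zero) hnz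
      refine ⟨δ, hδ, ?_⟩
      filter_upwards [hev] with N hN
      refine hN.trans ?_
      have hsub : ((Finset.range (N + 1)).filter fun ℓ => ℓ.Prime ∧
          Pool.Agent.U693.UN.Tp p.1 p.2 S ℓ) ⊆ ((Finset.range (N + 1)).filter fun ℓ => ℓ.Prime ∧
            HasQuadratic (S.image Int.toNat) p ℓ ∧ ∀ r : AlgebraicClosure ℚ,
              r ^ 2 = (ℓ : AlgebraicClosure ℚ) → r ∈ Omega (S.image Int.toNat) p) := by
        intro ℓ hℓ
        rw [Finset.mem_filter] at hℓ ⊢
        have hq := Pool.Agent.U693.UN.quad_of_Tp hS hℓ.2.1 hℓ.2.2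
        refine ⟨hℓ.1, hℓ.2.1, ?_, ?_⟩
        · intro M _ _ r hr hgen
          exact (class_iff hSp p M).2 (hq M r (by rw [hr, Int.cast_natCast]) hgen)
        · intro r hr
          rw [homega]
          exact Pool.Agent.U693.UN.om_sqrt (d := (ℓ : ℤ)) (fun M _ _ r hr hgen => hq M r hr hgen)
            (by rw [hr, Int.cast_natCast])
      exact_mod_cast Finset.card_le_card hsub
  have h4 := Set.ncard_le_ncard h3 ((hfin X).subset fun p hp => hp.1)
  exact_mod_cast h4

end Pool.Agent.Results.MP_78d38b_nt.UniformOverTwoExtensions
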